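import Pool.Agent.helper33.GR2.Spec

set_option autoImplicit false

open Complex Metric Set Filter Topology MeasureTheory
open MPS (om)
open PPS (pre TT fd)
open XPS (Df er dens tau)
open Pool.Agent.helper16.Multibrot

noncomputable section

namespace GR

theorem ZR1 : ZR1_stmt := by
  intro ι _ s z q U hs hU hz hq
  by_contra hcon
  push Not at hcon
  choose! w hw hw0 using hcon
  let P : Polynomial ℂ := ∑ j ∈ s, Polynomial.C (q j) * ∏ l ∈ s.erase j, (Polynomial.X - Polynomial.C (z l))
  have hev : ∀ x : ℂ, P.eval x = ∑ j ∈ s, q j * ∏ l ∈ s.erase j, (x - z l) := by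
    intro x
    simp only [P, Polynomial.eval_finsetSum, Polynomial.eval_mul, Polynomial.eval_C, Polynomial.eval_prod,
      Polynomial.eval_sub, Polynomial.eval_X]
  obtain ⟨i, hi⟩ := hs
  have hPi : P.eval (z i) = q i * ∏ l ∈ s.erase i, (z i - z l) := by
    rw [hev]
    refine Finset.sum_eq_single_of_mem i hi ?_
    intro j hj hji
    have : ∏ l ∈ s.erase j, (z i - z l) = 0 :=
      Finset.prod_eq_zero (Finset.mem_erase.mpr ⟨fun h => hji h.symm, hi⟩) (sub_self _)
    rw [this, mul_zero]
  have hP0 : P ≠ 0 := by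
    intro h0
    rw [h0, Polynomial.eval_zero] at hPi
    refine mul_ne_zero (hq i hi) ?_ hPi.symm
    refine Finset.prod_ne_zero_iff.mpr ?_
    intro l hl
    have hl' := Finset.mem_erase.mp hl
    exact sub_ne_zero.mpr (hz i hi l hl'.2 (fun h => hl'.1 h.symm))
  have hdeg : P.natDegree ≤ s.card - 1 := by
    refine Polynomial.natDegree_sum_le_of_forall_le s _ ?_
    intro j hj
    refine (Polynomial.natDegree_C_mul_le _ _).trans ?_
    refine (Polynomial.natDegree_prod_le _ _).trans ?_
    simp only [Polynomial.natDegree_X_sub_C, Finset.sum_const, smul_eq_mul, mul_one]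
    rw [Finset.card_erase_of_mem hj]
  have hinj : Set.InjOn w s := by
    intro a ha b hb hab
    by_contra hne
    have hd := hU a ha b hb hne
    exact Set.disjoint_left.mp hd (hw a ha) (hab ▸ hw b hb)
  have hsub : s.image w ⊆ P.roots.toFinset := by
    intro x hx
    obtain ⟨a, ha, rfl⟩ := Finset.mem_image.mp hx
    rw [Multiset.mem_toFinset, Polynomial.mem_roots hP0, Polynomial.IsRoot.def, hev]
    exact hw0 a ha
  have h1 : s.card ≤ P.roots.toFinset.card := by
    rw [← Finset.card_image_of_injOn hinj]
    exact Finset.card_le_card hsub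
  have h2 : P.roots.toFinset.card ≤ P.natDegree := (Multiset.toFinset_card_le _).trans (Polynomial.card_roots' P)
  have h3 : 0 < s.card := Finset.card_pos.mpr ⟨i, hi⟩
  omega

end GR
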